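import Mathlib

/-!
# A 5-chromatic unit-distance graph with 57 vertices in a normed plane

The unit ball is the octagon `K = {(x, y) : |x| ≤ 4, |y| ≤ 4, |x| + |y| ≤ 6}` with vertices
`(±4, ±2), (±2, ±4)`.  The vertices of the graph are 57 points of the lattice `ℤ²`, all of them in
`K`, and two of them are joined exactly when their difference has norm one.
-/

namespace Pool.Agent.Results.MP_a2d1c1_co.FiftySeven

open Set

/-- `G` is a unit-distance graph in the plane whose norm has unit ball `K`: its vertices are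
distinct points of the plane, and adjacent vertices are at distance one.  Here `gauge K` is the
Minkowski functional of `K`, which is the norm whose unit ball is `K`. -/
def IsUnitDistanceGraph {V : Type} (K : Set (ℝ × ℝ)) (G : SimpleGraph V) : Prop :=
  ∃ p : V → ℝ × ℝ, Function.Injective p ∧ ∀ u v, G.Adj u v → gauge K (p u - p v) = 1

/-! ### The octagon -/

/-- the octagon with vertices `(±4, ±2), (±2, ±4)` -/
def oct : Set (ℝ × ℝ) := {z | |z.1| ≤ 4 ∧ |z.2| ≤ 4 ∧ |z.1| + |z.2| ≤ 6}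

theorem oct_eq_inter : oct = {z : ℝ × ℝ | |z.1| ≤ 4} ∩ ({z | |z.2| ≤ 4} ∩ {z | |z.1| + |z.2| ≤ 6}) := by
  ext z
  simp [oct]

theorem oct_isClosed : IsClosed oct := by
  rw [oct_eq_inter]
  refine IsClosed.inter ?_ (IsClosed.inter ?_ ?_)
  · exact isClosed_le (by fun_prop) (by fun_prop)
  · exact isClosed_le (by fun_prop) (by fun_prop)
  · exact isClosed_le (by fun_prop) (by fun_prop)

theorem oct_isCompact : IsCompact oct := by
  have h : oct ⊆ Icc (-4 : ℝ) 4 ×ˢ Icc (-4 : ℝ) 4 := by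
    intro z hz
    obtain ⟨h1, h2, -⟩ := hz
    rw [abs_le] at h1 h2
    exact ⟨⟨h1.1, h1.2⟩, ⟨h2.1, h2.2⟩⟩
  exact (isCompact_Icc.prod isCompact_Icc).of_isClosed_subset oct_isClosed h

theorem oct_convex : Convex ℝ oct := by
  intro x hx y hy a b ha hb hab
  obtain ⟨x1, x2, x3⟩ := hx
  obtain ⟨y1, y2, y3⟩ := hy
  have e1 : |a * x.1 + b * y.1| ≤ a * |x.1| + b * |y.1| := by
    refine (abs_add_le _ _).trans ?_
    rw [abs_mul, abs_mul, abs_of_nonneg ha, abs_of_nonneg hb]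
  have e2 : |a * x.2 + b * y.2| ≤ a * |x.2| + b * |y.2| := by
    refine (abs_add_le _ _).trans ?_
    rw [abs_mul, abs_mul, abs_of_nonneg ha, abs_of_nonneg hb]
  refine ⟨?_, ?_, ?_⟩
  · show |a * x.1 + b * y.1| ≤ 4
    nlinarith
  · show |a * x.2 + b * y.2| ≤ 4
    nlinarith
  · show |a * x.1 + b * y.1| + |a * x.2 + b * y.2| ≤ 6
    nlinarith

theorem oct_interior : (interior oct).Nonempty := by
  refine ⟨(0, 0), ?_⟩
  rw [mem_interior]
  refine ⟨{z : ℝ × ℝ | |z.1| + |z.2| < 4}, ?_, ?_, ?_⟩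
  · intro z hz
    have hz' : |z.1| + |z.2| < 4 := hz
    have h1 := abs_nonneg z.1
    have h2 := abs_nonneg z.2
    exact ⟨by linarith, by linarith, by linarith⟩
  · exact isOpen_lt (by fun_prop) (by fun_prop)
  · simp

theorem oct_symm : ∀ z ∈ oct, -z ∈ oct := by
  intro z hz
  obtain ⟨h1, h2, h3⟩ := hz
  refine ⟨?_, ?_, ?_⟩
  · simpa using h1
  · simpa using h2
  · simpa using h3

/-- twelve times the norm of a lattice vector -/
def nrm (a b : ℤ) : ℤ := max (3 * |a|) (max (3 * |b|) (2 * (|a| + |b|)))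

theorem gauge_oct (a b : ℤ) (h : nrm a b = 12) : gauge oct ((a : ℝ), (b : ℝ)) = 1 := by
  have hR : max (3 * |(a : ℝ)|) (max (3 * |(b : ℝ)|) (2 * (|(a : ℝ)| + |(b : ℝ)|))) = 12 := by
    have := congrArg (Int.cast (R := ℝ)) h
    simpa [nrm] using this
  have h1 : 3 * |(a : ℝ)| ≤ 12 := by rw [← hR]; exact le_max_left _ _
  have h2 : 3 * |(b : ℝ)| ≤ 12 := by
    rw [← hR]; exact (le_max_left _ _).trans (le_max_right _ _)
  have h3 : 2 * (|(a : ℝ)| + |(b : ℝ)|) ≤ 12 := by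
    rw [← hR]; exact (le_max_right _ _).trans (le_max_right _ _)
  have hmem : ((a : ℝ), (b : ℝ)) ∈ oct := ⟨by simpa using by linarith, by simpa using by linarith, by
    show |(a : ℝ)| + |(b : ℝ)| ≤ 6
    linarith⟩
  refine le_antisymm (gauge_le_one_of_mem hmem) ?_
  unfold gauge
  refine le_csInf ?_ ?_
  · exact ⟨1, one_pos, Set.mem_smul_set.2 ⟨_, hmem, one_smul ℝ _⟩⟩
  · rintro r ⟨hr0, hr⟩
    have hr0' : (0 : ℝ) < r := hr0
    rw [Set.mem_smul_set] at hr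
    obtain ⟨y, hy, hyz⟩ := hr
    obtain ⟨y1, y2, y3⟩ := hy
    have ea : r * y.1 = a := congrArg Prod.fst hyz
    have eb : r * y.2 = b := congrArg Prod.snd hyz
    have fa : |(a : ℝ)| = r * |y.1| := by rw [← ea, abs_mul, abs_of_pos hr0']
    have fb : |(b : ℝ)| = r * |y.2| := by rw [← eb, abs_mul, abs_of_pos hr0']
    by_contra hlt
    push Not at hlt
    have g1 : 3 * |(a : ℝ)| < 12 := by rw [fa]; nlinarith [abs_nonneg y.1]
    have g2 : 3 * |(b : ℝ)| < 12 := by rw [fb]; nlinarith [abs_nonneg y.2]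
    have g3 : 2 * (|(a : ℝ)| + |(b : ℝ)|) < 12 := by
      rw [fa, fb]; nlinarith [abs_nonneg y.1, abs_nonneg y.2]
    have := max_lt g1 (max_lt g2 g3)
    rw [hR] at this
    exact lt_irrefl _ this

/-! ### The graph -/

/-- the 57 lattice points -/
def pts : List (ℤ × ℤ) := [
  (-4, -2), (-4, -1), (-4, 0), (-4, 1), (-4, 2), (-3, -3), (-3, -1), (-3, 0), (-3, 1), (-3, 3),
  (-2, -4), (-2, -2), (-2, -1), (-2, 0), (-2, 1), (-2, 2), (-2, 4), (-1, -4), (-1, -3),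
  (-1, -2), (-1, -1), (-1, 1), (-1, 2), (-1, 3), (-1, 4), (0, -4), (0, -3), (0, -2), (0, 0),
  (0, 2), (0, 3), (0, 4), (1, -4), (1, -3), (1, -2), (1, -1), (1, 1), (1, 2), (1, 3), (1, 4),
  (2, -4), (2, -2), (2, -1), (2, 0), (2, 1), (2, 2), (2, 4), (3, -3), (3, -1), (3, 0), (3, 1),
  (3, 3), (4, -2), (4, -1), (4, 0), (4, 1), (4, 2)]

/-- the `i`-th lattice point -/
def pt (i : Fin 57) : ℤ × ℤ := pts.getD i (0, 0)

/-- adjacency: the difference has norm one -/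
def adjB (i j : Fin 57) : Bool :=
  decide (nrm ((pt i).1 - (pt j).1) ((pt i).2 - (pt j).2) = 12)

theorem adjB_symm : ∀ i j : Fin 57, adjB i j = true → adjB j i = true := by decide +kernel

theorem adjB_irrefl : ∀ i : Fin 57, adjB i i = false := by decide +kernel

/-- the unit-distance graph on the 57 lattice points -/
def gr : SimpleGraph (Fin 57) where
  Adj i j := adjB i j = true
  symm := ⟨fun i j h => adjB_symm i j h⟩
  loopless := ⟨fun i h => by simp [adjB_irrefl i] at h⟩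

theorem gr_adj (i j : Fin 57) : gr.Adj i j ↔ adjB i j = true := Iff.rfl

theorem pt_injective : Function.Injective pt := by
  have h : ∀ i j : Fin 57, pt i = pt j → i = j := by decide +kernel
  intro i j hij
  exact h i j hij

theorem gr_unit : IsUnitDistanceGraph oct gr := by
  refine ⟨fun i => (((pt i).1 : ℝ), ((pt i).2 : ℝ)), ?_, ?_⟩
  · intro i j hij
    have hij' := Prod.mk.inj hij
    apply pt_injective
    exact Prod.ext (by exact_mod_cast hij'.1) (by exact_mod_cast hij'.2)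
  · intro u v huv
    have h : nrm ((pt u).1 - (pt v).1) ((pt u).2 - (pt v).2) = 12 := of_decide_eq_true huv
    have := gauge_oct _ _ h
    push_cast at this
    exact this

/-! ### Five colours suffice -/

/-- a proper 5-colouring -/
def col5 : List ℕ := [
  0, 0, 0, 0, 1, 1, 0, 0, 0, 1, 1, 0, 0, 0, 0, 1, 1, 1, 1, 2, 0, 2, 1, 1, 1, 1, 1, 2, 2, 3, 2,
  3, 3, 3, 2, 3, 2, 3, 2, 3, 3, 4, 3, 2, 4, 3, 0, 3, 4, 4, 4, 0, 0, 4, 1, 0, 1]

theorem col5_lt : ∀ i : Fin 57, col5.getD i 0 < 5 := by decide +kernel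

theorem col5_ne : ∀ i j : Fin 57, adjB i j = true → col5.getD i 0 ≠ col5.getD j 0 := by
  decide +kernel

theorem gr_colorable_five : gr.Colorable 5 := by
  refine ⟨SimpleGraph.Coloring.mk (fun i => (⟨col5.getD i 0, col5_lt i⟩ : Fin 5)) ?_⟩
  intro i j hij h
  exact col5_ne i j hij (congrArg Fin.val h)

/-! ### Four colours do not suffice -/

/-- the complements of the neighbourhoods, 64 bits for each vertex -/
def big : ℕ := 10874742144894330597861468734818786924566159483320792107552242804883243277684993635832813083127678360498660801055450537384211344048940917664396296337456717828470285056820570995128329412468940983375723873567771242577392807190950029379716277487356031939980230305146106767822639499292804546701893825904859575037655965150748182571266242166377535714381927264104585043908763663557875538360285599733578075194346152778791123019150471218128121174169312647430875126023386931819724247369960301708309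591892404854022164425811578541045156843169813832509270509565541827708921206184532307360283500700814653638498660502474721745753400675244091186061719856347203412549929000523906185151219316112072333535960647406270148263023910736647467725210844582364113521257860841517928048847265292342533362410660000208353517188282513794350759697754855463405650747900030901827697250795472238903182783053830381171706841096807335083321144568891423272914386989698438609364066585241119983625718169257743705204384595564501943341063173545455550077896010694548876741800668821633606683297972361374318875546376615624242005767900431876079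

/-- complement of the neighbourhood of `v`, as a bit mask -/
def nadj (v : ℕ) : ℕ := (big >>> (64 * v)) % 2 ^ 64

/-- complement of `v`, as a bit mask -/
def nbit (v : ℕ) : ℕ := (2 ^ 57 - 1) ^^^ (1 <<< v)

theorem nadj_spec : ∀ v w : Fin 57, adjB v w = false → (nadj v).testBit w = true := by
  decide +kernel

theorem nbit_spec : ∀ v w : Fin 57, v ≠ w → (nbit v).testBit w = true := by
  decide +kernel

/-- The search.  The numbers `d0, …, d3` are bit masks of the vertices that may still get colour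
`0, …, 3`; the list gives the vertices to branch on, in depth-first order. -/
def run : ℕ → List ℕ → ℕ → ℕ → ℕ → ℕ → Option (List ℕ)
  | 0, _, _, _, _, _ => none
  | _ + 1, [], _, _, _, _ => none
  | n + 1, v :: l, d0, d1, d2, d3 =>
    if v < 57 then
      (if d0.testBit v then
        run n l (d0 &&& nadj v) (d1 &&& nbit v) (d2 &&& nbit v) (d3 &&& nbit v)
        else some l).bind fun l1 =>
      (if d1.testBit v then
        run n l1 (d0 &&& nbit v) (d1 &&& nadj v) (d2 &&& nbit v) (d3 &&& nbit v)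
        else some l1).bind fun l2 =>
      (if d2.testBit v then
        run n l2 (d0 &&& nbit v) (d1 &&& nbit v) (d2 &&& nadj v) (d3 &&& nbit v)
        else some l2).bind fun l3 =>
      (if d3.testBit v then
        run n l3 (d0 &&& nbit v) (d1 &&& nbit v) (d2 &&& nbit v) (d3 &&& nadj v)
        else some l3)
    else none

/-- the mask of colour `c` -/
def sel (d0 d1 d2 d3 : ℕ) (c : Fin 4) : ℕ :=
  match c with
  | 0 => d0
  | 1 => d1
  | 2 => d2
  | 3 => d3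

/-- the colouring `f` is compatible with the masks -/
def Cons (f : Fin 57 → Fin 4) (d0 d1 d2 d3 : ℕ) : Prop :=
  ∀ w : Fin 57, (sel d0 d1 d2 d3 (f w)).testBit w = true

section
variable {f : Fin 57 → Fin 4} (hf : ∀ i j, adjB i j = true → f i ≠ f j)
include hf

theorem bit_adj (v w : Fin 57) (h : f v = f w) : (nadj v).testBit w = true := by
  apply nadj_spec
  by_contra hc
  exact hf v w (by simpa using hc) h

omit hf in
theorem bit_ne (v w : Fin 57) (h : f v ≠ f w) : (nbit v).testBit w = true := by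
  apply nbit_spec
  rintro rfl
  exact h rfl

theorem cons_step0 {d0 d1 d2 d3 : ℕ} (hc : Cons f d0 d1 d2 d3) (v : Fin 57) (hv : f v = 0) :
    Cons f (d0 &&& nadj v) (d1 &&& nbit v) (d2 &&& nbit v) (d3 &&& nbit v) := by
  intro w
  have h := hc w
  have e1 := bit_adj hf v w
  have e2 := bit_ne v w (f := f)
  rcases hfw : f w with ⟨k, hk⟩
  interval_cases k <;> simp_all [sel, Nat.testBit_and]

theorem cons_step1 {d0 d1 d2 d3 : ℕ} (hc : Cons f d0 d1 d2 d3) (v : Fin 57) (hv : f v = 1) :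
    Cons f (d0 &&& nbit v) (d1 &&& nadj v) (d2 &&& nbit v) (d3 &&& nbit v) := by
  intro w
  have h := hc w
  have e1 := bit_adj hf v w
  have e2 := bit_ne v w (f := f)
  rcases hfw : f w with ⟨k, hk⟩
  interval_cases k <;> simp_all [sel, Nat.testBit_and]

theorem cons_step2 {d0 d1 d2 d3 : ℕ} (hc : Cons f d0 d1 d2 d3) (v : Fin 57) (hv : f v = 2) :
    Cons f (d0 &&& nbit v) (d1 &&& nbit v) (d2 &&& nadj v) (d3 &&& nbit v) := by
  intro w
  have h := hc w
  have e1 := bit_adj hf v w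
  have e2 := bit_ne v w (f := f)
  rcases hfw : f w with ⟨k, hk⟩
  interval_cases k <;> simp_all [sel, Nat.testBit_and]

theorem cons_step3 {d0 d1 d2 d3 : ℕ} (hc : Cons f d0 d1 d2 d3) (v : Fin 57) (hv : f v = 3) :
    Cons f (d0 &&& nbit v) (d1 &&& nbit v) (d2 &&& nbit v) (d3 &&& nadj v) := by
  intro w
  have h := hc w
  have e1 := bit_adj hf v w
  have e2 := bit_ne v w (f := f)
  rcases hfw : f w with ⟨k, hk⟩
  interval_cases k <;> simp_all [sel, Nat.testBit_and]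

theorem run_sound : ∀ (n : ℕ) (l : List ℕ) (d0 d1 d2 d3 : ℕ) (r : List ℕ),
    run n l d0 d1 d2 d3 = some r → ¬ Cons f d0 d1 d2 d3
  | 0, l, d0, d1, d2, d3, r => by
    intro h
    simp [run] at h
  | n + 1, [], d0, d1, d2, d3, r => by
    intro h
    simp [run] at h
  | n + 1, v :: l, d0, d1, d2, d3, r => by
    intro h hc
    unfold run at h
    by_cases hv : v < 57
    · rw [if_pos hv] at h
      obtain ⟨l1, h0, h⟩ := Option.bind_eq_some_iff.1 h
      obtain ⟨l2, h1, h⟩ := Option.bind_eq_some_iff.1 h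
      obtain ⟨l3, h2, h3⟩ := Option.bind_eq_some_iff.1 h
      have hcv := hc ⟨v, hv⟩
      rcases hfv : f ⟨v, hv⟩ with ⟨k, hk⟩
      rw [hfv] at hcv
      interval_cases k
      · have hb : d0.testBit v = true := hcv
        rw [if_pos hb] at h0
        exact run_sound n _ _ _ _ _ _ h0 (cons_step0 hf hc ⟨v, hv⟩ hfv)
      · have hb : d1.testBit v = true := hcv
        rw [if_pos hb] at h1
        exact run_sound n _ _ _ _ _ _ h1 (cons_step1 hf hc ⟨v, hv⟩ hfv)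
      · have hb : d2.testBit v = true := hcv
        rw [if_pos hb] at h2
        exact run_sound n _ _ _ _ _ _ h2 (cons_step2 hf hc ⟨v, hv⟩ hfv)
      · have hb : d3.testBit v = true := hcv
        rw [if_pos hb] at h3
        exact run_sound n _ _ _ _ _ _ h3 (cons_step3 hf hc ⟨v, hv⟩ hfv)
    · rw [if_neg hv] at h
      exact absurd h (by simp)

end

/-- the branching vertices of the search tree -/
def code : List ℕ := [
  45, 16, 2, 28, 27, 52, 56, 29, 31, 0, 4, 11, 25, 36, 7, 26, 43, 15, 46, 54, 40, 20, 30, 42,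
  22, 49, 4, 11, 15, 40, 43, 25, 6, 36, 7, 18, 33, 35, 23, 12, 9, 20, 44, 47, 35, 23, 20, 48,
  21, 18, 47, 50, 29, 56, 52, 25, 0, 4, 15, 35, 7, 30, 43, 11, 12, 40, 54, 46, 21, 26, 44, 19,
  49, 4, 11, 15, 43, 31, 40, 46, 54, 7, 36, 18, 21, 48, 20, 23, 51, 35, 8, 5, 30, 32, 12, 23,
  33, 21, 51, 28, 27, 29, 56, 52, 7, 35, 15, 11, 46, 43, 31, 8, 5, 36, 18, 14, 26, 37, 40, 54,
  46, 43, 11, 15, 25, 0, 21, 26, 36, 11, 36, 26, 54, 33, 21, 5, 14, 34, 6, 9, 12, 23, 43, 15,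
  46, 52, 56, 29, 7, 36, 11, 40, 43, 25, 6, 9, 35, 23, 12, 30, 34, 46, 54, 40, 43, 11, 15, 31,
  4, 20, 30, 35, 15, 35, 30, 54, 38, 20, 9, 6, 12, 36, 8, 5, 14, 18, 40, 11, 43, 2, 28, 27, 15,
  46, 11, 29, 4, 54, 40, 20, 49, 21, 0, 26, 7, 36, 29, 4, 40, 43, 54, 19, 49, 20, 21, 30, 38,
  48, 18, 25, 0, 51, 22, 23, 12, 9, 1, 26, 7, 36, 49, 20, 23, 50, 21, 18, 47, 11, 29, 4, 0, 25,
  52, 36, 7, 26, 21, 35, 46, 49, 20, 23, 50, 40, 7, 35, 34, 43, 23, 12, 31, 4, 0, 29, 32, 46,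
  54, 38, 9, 6, 36, 18, 14, 5, 21, 14, 4, 0, 31, 5, 21, 18, 33, 36, 21, 18, 33, 36, 47, 50, 29,
  31, 54, 46, 3, 19, 44, 49, 21, 18, 26, 36, 5, 24, 44, 33, 21, 50, 18, 36, 26, 0, 21, 33, 5, 8,
  31, 4, 29, 3, 24, 30, 44, 19, 48, 20, 50, 22, 29, 4, 6, 31, 37, 9, 12, 43, 14, 5, 32, 53, 51,
  21, 24, 44, 33, 50, 35, 36, 8, 18, 31, 43, 29, 54, 40, 11, 4, 15, 31, 43, 28, 52, 7, 36, 26,
  11, 15, 0, 21, 18, 43, 46, 27, 35, 8, 5, 18, 21, 40, 43, 46, 15, 27, 37, 53, 32, 12, 23, 35,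
  6, 29, 54, 35, 15, 46, 43, 25, 0, 21, 18, 27, 36, 11, 4, 29, 31, 56, 27, 11, 29, 4, 0, 34, 36,
  26, 14, 43, 36, 43, 23, 6, 9, 25, 33, 37, 39, 46, 54, 29, 34, 14, 18, 21, 38, 48, 40, 46, 54,
  33, 6, 21, 18, 8, 5, 14, 34, 29, 47, 55, 56, 30, 20, 38, 9, 12, 37, 8, 27, 29, 31, 4, 11, 40,
  40, 49, 46, 15, 27, 29, 34, 54, 38, 9, 6, 12, 32, 5, 8, 36, 27, 56, 29, 11, 4, 31, 43, 15, 0,
  25, 7, 34, 55, 5, 3, 30, 35, 8, 15, 31, 4, 0, 25, 43, 14, 35, 8, 18, 36, 47, 34, 36, 6, 26,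
  33, 21, 5, 8, 31, 50, 16, 54, 27, 29, 2, 11, 15, 43, 46, 28, 0, 21, 25, 33, 50, 23, 6, 20, 35,
  38, 33, 36, 18, 8, 38, 35, 6, 7, 23, 34, 14, 43, 8, 5, 28, 31, 4, 0, 15, 25, 40, 48, 19, 38,
  35, 7, 26, 21, 49, 21, 48, 50, 31, 4, 20, 23, 6, 35, 7, 15, 19, 26, 30, 49, 38, 35, 6, 7, 23,
  34, 50, 21, 5, 14, 31, 28, 43, 15, 46, 36, 52, 56, 28, 25, 0, 15, 21, 46, 2, 29, 11, 15, 28,
  4, 46, 43, 3, 19, 24, 44, 14, 5, 33, 35, 7, 36, 18, 21, 48, 18, 21, 48, 20, 23, 50, 5, 8, 21,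
  36, 33, 50, 20, 23, 48, 51, 33, 35, 36, 6, 9, 38, 0, 25, 43, 1, 17, 42, 22, 38, 9, 20, 23, 35,
  7, 30, 48, 21, 49, 22, 42, 17, 38, 35, 23, 50, 20, 47, 15, 28, 4, 31, 43, 3, 24, 44, 19, 33,
  5, 14, 18, 21, 34, 7, 47, 17, 42, 30, 48, 20, 50, 19, 44, 24, 33, 36, 18, 48, 21, 51, 0, 40,
  43, 1, 17, 22, 42, 12, 9, 36, 7, 26, 14, 33, 5, 8, 21, 38, 35, 23, 20, 50, 12, 9, 23, 36, 33,
  38, 35, 5, 8, 20, 4, 23, 30, 31, 35, 56, 17, 47, 18, 21, 33, 36, 8, 5, 48, 25, 6, 38, 35, 23,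
  50, 47, 18, 48, 21, 50, 29, 15, 11, 43, 40, 28, 4, 20, 31, 38, 48, 18, 8, 21, 33, 36, 35, 38,
  23, 6, 33, 36, 7, 8, 18, 37, 12, 43, 6, 34, 9, 28, 25, 0, 4, 11, 31, 8, 43, 18, 14, 46, 21,
  48, 20, 30, 7, 26, 36, 20, 48, 25, 0, 50, 21, 18, 8, 36, 7, 26, 30, 49, 33, 36, 8, 18, 48, 20,
  9, 12, 25, 28, 40, 11, 43, 38, 56, 52, 28, 31, 4, 11, 20, 40, 28, 40, 46, 2, 29, 11, 4, 27,
  15, 0, 21, 31, 43, 18, 8, 5, 33, 36, 31, 4, 11, 43, 15, 56, 52, 25, 0, 21, 27, 50, 23, 20, 48,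
  18, 8, 19, 36, 26, 33, 44, 43, 11, 4, 15, 25, 0, 21, 27, 3, 19, 24, 37, 51, 53, 5, 19, 32, 12,
  44, 4, 11, 15, 27, 21, 18, 36, 33, 5, 3, 14, 24, 7, 44, 19, 47, 17, 42, 30, 48, 20, 50, 0, 25,
  48, 19, 3, 5, 20, 24, 44, 33, 50, 11, 15, 0, 21, 25, 27, 50, 20, 23, 48, 51, 25, 52, 18, 21,
  48, 20, 23, 35, 6, 9, 38, 36, 6, 26, 21, 48, 20, 9, 38, 29, 11, 4, 27, 15, 0, 21, 31, 43, 18,
  8, 5, 3, 35, 36, 26, 7, 33, 6, 23, 37, 9, 12, 44, 19, 49, 20, 50, 40, 46, 2, 27, 15, 0, 25,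
  29, 11, 4, 20, 43, 23, 6, 9, 35, 38, 25, 0, 15, 43, 11, 52, 56, 29, 31, 4, 20, 48, 18, 19, 21,
  47, 36, 8, 49, 26, 14, 39, 9, 12, 32, 5, 3, 30, 33, 6, 35, 23, 50, 43, 15, 11, 29, 31, 4, 20,
  1, 17, 22, 34, 47, 55, 9, 36, 6, 23, 35, 0, 15, 11, 29, 20, 23, 35, 38, 9, 1, 17, 7, 30, 42,
  22, 48, 21, 49, 48, 19, 47, 17, 42, 22, 1, 9, 38, 15, 11, 4, 20, 29, 48, 18, 21, 47, 50, 31,
  56, 20, 23, 30, 35, 50, 21, 18, 33, 5, 8, 36, 27, 15, 0, 25, 29, 11, 4, 20, 43, 23, 6, 9, 1,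
  35, 30, 7, 36, 38, 8, 18, 42, 22, 48, 21, 49, 28, 40, 46, 11, 43, 15, 27, 52, 21, 33, 5, 35,
  8, 36, 14, 18, 2, 26, 0, 4, 29, 34, 7, 36, 18, 25, 31, 56, 29, 35, 6, 33, 5, 8, 36, 50, 47,
  36, 8, 35, 5, 6, 34, 0, 4, 29, 31, 48, 56, 35, 6, 33, 5, 32, 36, 8, 37, 12, 30, 20, 38, 36, 8,
  35, 5, 7, 34, 21, 33, 5, 36, 52, 56, 29, 6, 34, 27, 15, 0, 43, 25, 52, 29, 56, 4, 31, 43, 15,
  0, 25, 52, 26, 14, 34, 36, 6, 8, 35, 33, 0, 15, 35, 44, 26, 7, 36, 15, 43, 31, 3, 5, 8, 35,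
  36, 6, 18, 14, 34, 5, 8, 18, 14, 34, 36, 6, 34, 5, 8, 14, 18, 47, 55, 2, 56, 52, 36, 18, 8,
  31, 33, 47, 50, 40, 46, 2, 27, 15, 0, 29, 11, 4, 20, 31, 38, 35, 56, 15, 11, 27, 0, 25, 29, 4,
  52, 36, 1, 17, 7, 26, 9, 17, 20, 47, 0, 21, 27, 33, 50, 20, 31, 38, 35, 56, 27, 35, 56, 31, 4,
  8, 20, 30, 7, 17, 36, 47, 38, 20, 4, 9, 11, 30, 7, 36, 28, 40, 46, 15, 43, 11, 29, 56, 20, 38,
  9, 35, 6, 23, 12, 23, 30, 3, 4, 0, 25, 32, 5, 33, 35, 6, 36, 23, 25, 52, 27, 36, 6, 35, 8, 38,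
  9, 33, 34, 38, 8, 31, 4, 0, 39, 14, 26, 21, 48, 48, 51, 35, 6, 36, 7, 9, 37, 35, 6, 36, 7, 9,
  37, 20, 38, 9, 35, 56, 29, 48, 52, 25, 6, 27, 8, 36, 27, 29, 52, 0, 35, 38, 4, 11, 30, 7, 36,
  11, 30, 43, 12, 23, 6, 9, 36, 7, 37, 56, 30, 7, 36, 11, 4, 26, 31, 37, 43, 25, 6, 9, 12, 23,
  51, 53, 25, 43, 11, 4, 31, 56, 30, 12, 35, 6, 36, 7, 37, 2, 52, 56, 35, 23, 38, 43, 25, 48,
  51, 40, 46, 2, 29, 11, 4, 27, 15, 0, 21, 25, 33, 36, 52, 11, 15, 29, 4, 27, 0, 31, 56, 35, 3,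
  5, 21, 24, 51, 5, 21, 24, 51, 4, 20, 29, 38, 48, 21, 25, 33, 36, 52, 29, 33, 21, 0, 5, 15, 34,
  14, 43, 36, 6, 25, 52, 2, 28, 29, 27, 54, 40, 46, 15, 11, 43, 11, 15, 46, 7, 36, 37, 19, 27,
  0, 8, 25, 34, 5, 14, 43, 12, 9, 39, 55, 47, 17, 18, 20, 42, 38, 48, 43, 18, 14, 25, 0, 4, 27,
  39, 40, 54, 33, 5, 35, 23, 12, 9, 20, 12, 23, 35, 30, 4, 20, 38, 9, 6, 25, 0, 26, 1, 17, 27,
  42, 22, 48, 21, 49, 0, 25, 27, 54, 40, 1, 9, 17, 42, 38, 20, 48, 22, 42, 49, 20, 23, 30, 35,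
  4, 25, 9, 20, 23, 38, 35, 48, 51, 6, 20, 23, 35, 38, 35, 36, 6, 23, 25, 43, 27, 0, 4, 31, 56,
  35, 7, 30, 20, 36, 40, 49, 21, 18, 48, 40, 15, 27, 0, 43, 46, 54, 21, 18, 48, 20, 23, 51, 33,
  49, 20, 22, 26, 50, 23, 31, 4, 47, 18, 14, 5, 19, 3, 30, 7, 35, 27, 0, 54, 46, 21, 49, 20, 4,
  30, 7, 35, 28, 56, 29, 52, 27, 11, 15, 7, 36, 26, 37, 53, 0, 4, 30, 31, 35, 43, 25, 6, 9, 12,
  23, 51, 4, 25, 6, 30, 35, 35, 30, 36, 8, 31, 4, 38, 20, 40, 43, 0, 4, 31, 43, 40, 43, 46, 54,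
  7, 35, 30, 12, 23, 51, 42, 6, 29, 34, 55, 11, 15, 46, 43, 39, 14, 18, 36, 8, 27, 54, 40, 43,
  36, 9, 20, 33, 50, 47, 18, 8, 5, 14, 37, 9, 20, 23, 43, 32, 5, 8, 27, 51, 53, 36, 52, 26, 21,
  46, 49, 40, 11, 29, 54, 33, 5, 14, 34, 6, 9, 39, 33, 5, 14, 34, 6, 25, 0, 29, 4, 11, 15, 46,
  11, 29, 15, 35, 40, 43, 46, 54, 38, 8, 5, 20, 23, 6, 9, 12, 32, 37, 51, 53, 43, 18, 8, 5, 38,
  54, 27, 33, 6, 21, 23, 20, 50, 27, 0, 4, 35, 30, 37, 12, 43, 40, 43, 31, 4, 20, 23, 29, 35,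
  15, 0, 25, 27, 52]

/-- all vertices -/
def full : ℕ := 2 ^ 57 - 1

theorem full_bit : ∀ w : Fin 57, full.testBit w = true := by decide +kernel

theorem run_code : (run 100 code
    (((full &&& nadj 10) &&& nbit 13) &&& nbit 41)
    (((full &&& nbit 10) &&& nadj 13) &&& nbit 41)
    (((full &&& nbit 10) &&& nbit 13) &&& nadj 41)
    (((full &&& nbit 10) &&& nbit 13) &&& nbit 41)).isSome = true := by
  decide +kernel

theorem exists_perm : ∀ x y z : Fin 4, x ≠ y → x ≠ z → y ≠ z →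
    ∃ s : Equiv.Perm (Fin 4), s x = 0 ∧ s y = 1 ∧ s z = 2 := by
  decide +kernel

theorem tri : adjB 10 13 = true ∧ adjB 10 41 = true ∧ adjB 13 41 = true := by
  decide +kernel

theorem gr_not_colorable_four : ¬ gr.Colorable 4 := by
  rintro ⟨g⟩
  have hg : ∀ i j, adjB i j = true → g i ≠ g j := fun i j h => g.valid h
  obtain ⟨s, s0, s1, s2⟩ := exists_perm (g 10) (g 13) (g 41) (hg _ _ tri.1) (hg _ _ tri.2.1)
    (hg _ _ tri.2.2)
  have hf : ∀ i j, adjB i j = true → s (g i) ≠ s (g j) := fun i j h e =>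
    hg i j h (s.injective e)
  have c0 : Cons (fun i => s (g i)) full full full full := by
    intro w
    have hw := full_bit w
    rcases hfw : s (g w) with ⟨k, hk⟩
    show (sel full full full full (s (g w))).testBit w = true
    rw [hfw]
    interval_cases k <;> exact hw
  have c1 := cons_step0 (f := fun i => s (g i)) hf c0 10 s0
  have c2 := cons_step1 (f := fun i => s (g i)) hf c1 13 s1
  have c3 := cons_step2 (f := fun i => s (g i)) hf c2 41 s2
  obtain ⟨r, hr⟩ := Option.isSome_iff_exists.1 run_code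
  exact run_sound hf _ _ _ _ _ _ _ hr c3

theorem gr_chromaticNumber : gr.chromaticNumber = 5 := by
  refine le_antisymm gr_colorable_five.chromaticNumber_le ?_
  by_contra h
  push Not at h
  have h4 : gr.chromaticNumber ≤ (4 : ℕ) := by
    have : gr.chromaticNumber < (4 : ℕ∞) + 1 := by
      have e : (4 : ℕ∞) + 1 = 5 := by norm_num
      rw [e]; exact h
    exact Order.le_of_lt_add_one this
  exact gr_not_colorable_four (SimpleGraph.chromaticNumber_le_iff_colorable.1 h4)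

/-- There is a centrally symmetric convex body `K` in the plane (an octagon) such that the plane
with the norm whose unit ball is `K` contains a unit-distance graph with 57 vertices and chromatic
number 5. -/
theorem result : ∃ K : Set (ℝ × ℝ), IsCompact K ∧ Convex ℝ K ∧ (interior K).Nonempty ∧
    (∀ z ∈ K, -z ∈ K) ∧
    ∃ G : SimpleGraph (Fin 57), IsUnitDistanceGraph K G ∧ G.chromaticNumber = 5 :=
  ⟨oct, oct_isCompact, oct_convex, oct_interior, oct_symm, gr, gr_unit, gr_chromaticNumber⟩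

end Pool.Agent.Results.MP_a2d1c1_co.FiftySeven
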